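import Pool.Agent.Lib_helper15.Bishop.Defs

/-!
# Module D: analytic families of bounded functions on a set of finite measure give analytic
functions into `L^p`
-/

set_option autoImplicit false

universe u

namespace Pool.Agent.Bishop

open MeasureTheory Set Filter
open scoped ENNReal NNReal Topology

/-- (D) with the additional hypothesis `0 ≤ c` (needed when `X` is empty). -/
def ModD' : Prop :=
  ∀ {X : Type u} [MeasurableSpace X] (μ : Measure X) (p : ℝ≥0∞) [Fact (1 ≤ p)]
    (G : Set X), MeasurableSet G → μ G < ∞ → ∀ (θ : X → X), MeasurePreserving θ μ μ →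
    ∀ (U : Set ℂ), IsOpen U → ∀ (g : ℂ → X → ℂ) (c a : ℝ), 0 ≤ c →
    (∀ z ∈ U, Measurable (g z)) → (∀ s, DifferentiableOn ℂ (fun z => g z s) U) →
    (∀ z ∈ U, ∀ s, ‖g z s‖ ≤ c * Real.exp (a * |z.im|)) → (∀ z s, s ∉ G → g z s = 0) →
    ∃ F : ℂ → Lp ℂ p μ, DifferentiableOn ℂ F U ∧
      (∀ z ∈ U, (F z : X → ℂ) =ᵐ[μ] fun t => g z (θ t)) ∧
      (∀ z ∈ U, ‖F z‖ ≤ c * Real.exp (a * |z.im|) * max 1 (μ G).toReal)

namespace ModDAux

/-- Second order Taylor estimate by the Schwarz lemma, with a constant that depends only on the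
bound and the radius. -/
lemma taylor_two {h : ℂ → ℂ} {z₀ : ℂ} {R K : ℝ} (hR : 0 < R)
    (hd : DifferentiableOn ℂ h (Metric.ball z₀ R)) (hK : ∀ z ∈ Metric.ball z₀ R, ‖h z‖ ≤ K) :
    ‖deriv h z₀‖ ≤ 2 * K / R ∧ ∀ z ∈ Metric.ball z₀ R,
      ‖h z - h z₀ - (z - z₀) * deriv h z₀‖ ≤ (2 * (2 * K / R) / R) * ‖z - z₀‖ ^ 2 := by
  have hz₀ : z₀ ∈ Metric.ball z₀ R := Metric.mem_ball_self hR
  have hnhds : Metric.ball z₀ R ∈ 𝓝 z₀ := Metric.ball_mem_nhds z₀ hR
  have h1 : MapsTo h (Metric.ball z₀ R) (Metric.closedBall (h z₀) (2 * K)) := by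
    intro z hz
    rw [Metric.mem_closedBall, dist_eq_norm]
    calc ‖h z - h z₀‖ ≤ ‖h z‖ + ‖h z₀‖ := norm_sub_le _ _
      _ ≤ K + K := add_le_add (hK z hz) (hK z₀ hz₀)
      _ = 2 * K := by ring
  have h2 : ∀ z ∈ Metric.ball z₀ R, ‖dslope h z₀ z‖ ≤ 2 * K / R :=
    fun z hz => Complex.norm_dslope_le_div_of_mapsTo_ball hd h1 hz
  have hq : DifferentiableOn ℂ (dslope h z₀) (Metric.ball z₀ R) :=
    (Complex.differentiableOn_dslope hnhds).2 hd
  have h3 : MapsTo (dslope h z₀) (Metric.ball z₀ R)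
      (Metric.closedBall (dslope h z₀ z₀) (2 * (2 * K / R))) := by
    intro z hz
    rw [Metric.mem_closedBall, dist_eq_norm]
    calc ‖dslope h z₀ z - dslope h z₀ z₀‖ ≤ ‖dslope h z₀ z‖ + ‖dslope h z₀ z₀‖ := norm_sub_le _ _
      _ ≤ 2 * K / R + 2 * K / R := add_le_add (h2 z hz) (h2 z₀ hz₀)
      _ = 2 * (2 * K / R) := by ring
  have h4 : ∀ z ∈ Metric.ball z₀ R, ‖dslope (dslope h z₀) z₀ z‖ ≤ 2 * (2 * K / R) / R :=
    fun z hz => Complex.norm_dslope_le_div_of_mapsTo_ball hq h3 hz
  refine ⟨by simpa using h2 z₀ hz₀, ?_⟩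
  intro z hz
  have e1 : h z - h z₀ - (z - z₀) * deriv h z₀ = (z - z₀) ^ 2 * dslope (dslope h z₀) z₀ z := by
    have a1 : (z - z₀) • dslope h z₀ z = h z - h z₀ := sub_smul_dslope h z₀ z
    have a2 : (z - z₀) • dslope (dslope h z₀) z₀ z = dslope h z₀ z - dslope h z₀ z₀ :=
      sub_smul_dslope (dslope h z₀) z₀ z
    rw [dslope_same] at a2
    simp only [smul_eq_mul] at a1 a2
    linear_combination -a1 - (z - z₀) * a2
  rw [e1, norm_mul, norm_pow, mul_comm]
  exact mul_le_mul_of_nonneg_right (h4 z hz) (by positivity)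

variable {X : Type u} [MeasurableSpace X]

/-- Bounded functions supported in a set of finite measure. -/
lemma memLp_bound (μ : Measure X) (p : ℝ≥0∞) [hp : Fact (1 ≤ p)] {G' : Set X}
    (hG' : MeasurableSet G') (hfin : μ G' < ∞) {f : X → ℂ} (hf : Measurable f)
    (hsupp : ∀ t, t ∉ G' → f t = 0) {K : ℝ} (hK0 : 0 ≤ K) (hK : ∀ t, ‖f t‖ ≤ K) :
    ∃ h : MemLp f p μ, ‖h.toLp f‖ ≤ K * max 1 (μ G').toReal := by
  have hind : f = G'.indicator f := by
    funext t
    by_cases ht : t ∈ G'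
    · rw [indicator_of_mem ht]
    · rw [indicator_of_notMem ht, hsupp t ht]
  have hmax : (1 : ℝ≥0∞) ≤ max 1 (μ G') := le_max_left _ _
  have hpow : (μ G') ^ p.toReal⁻¹ ≤ max 1 (μ G') := by
    have hp0 : 0 ≤ p.toReal⁻¹ := inv_nonneg.2 ENNReal.toReal_nonneg
    have hp1 : p.toReal⁻¹ ≤ 1 := by
      rcases eq_or_ne p ∞ with rfl | hpt
      · simp
      · have : (1 : ℝ) ≤ p.toReal := by
          have := ENNReal.toReal_mono hpt hp.out
          simpa using this
        exact inv_le_one_of_one_le₀ this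
    calc (μ G') ^ p.toReal⁻¹ ≤ (max 1 (μ G')) ^ p.toReal⁻¹ :=
          ENNReal.rpow_le_rpow (le_max_right _ _) hp0
      _ ≤ (max 1 (μ G')) ^ (1 : ℝ) := ENNReal.rpow_le_rpow_of_exponent_le hmax hp1
      _ = max 1 (μ G') := ENNReal.rpow_one _
  have hle : eLpNorm f p μ ≤ max 1 (μ G') * ENNReal.ofReal K := by
    rw [hind, eLpNorm_indicator_eq_eLpNorm_restrict hG']
    calc eLpNorm f p (μ.restrict G') ≤ (μ.restrict G') Set.univ ^ p.toReal⁻¹ * ENNReal.ofReal K :=
          eLpNorm_le_of_ae_bound (Eventually.of_forall hK)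
      _ = (μ G') ^ p.toReal⁻¹ * ENNReal.ofReal K := by rw [Measure.restrict_apply_univ]
      _ ≤ max 1 (μ G') * ENNReal.ofReal K := mul_le_mul_left hpow _
  have hmaxfin : max 1 (μ G') * ENNReal.ofReal K < ∞ :=
    ENNReal.mul_lt_top (max_lt ENNReal.one_lt_top hfin) ENNReal.ofReal_lt_top
  have hmem : MemLp f p μ := ⟨hf.aestronglyMeasurable, hle.trans_lt hmaxfin⟩
  refine ⟨hmem, ?_⟩
  rw [Lp.norm_toLp]
  calc (eLpNorm f p μ).toReal ≤ (max 1 (μ G') * ENNReal.ofReal K).toReal :=
        ENNReal.toReal_mono hmaxfin.ne hle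
    _ = K * max 1 (μ G').toReal := by
        rw [ENNReal.toReal_mul, ENNReal.toReal_ofReal hK0, mul_comm]
        congr 1
        rw [ENNReal.toReal_max ENNReal.one_ne_top hfin.ne, ENNReal.toReal_one]

end ModDAux

open ModDAux in
theorem modD : ModD'.{u} := by
  classical
  intro X _ μ p hp G hG hGfin θ hθ U hU g c a hc hmeas hdiff hbd hsupp
  set G' : Set X := θ ⁻¹' G with hG'def
  have hG' : MeasurableSet G' := hθ.measurable hG
  have hμG' : μ G' = μ G := hθ.measure_preimage hG.nullMeasurableSet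
  have hG'fin : μ G' < ∞ := by rw [hμG']; exact hGfin
  -- the function
  have hmem : ∀ z ∈ U, ∃ h : MemLp (fun t => g z (θ t)) p μ,
      ‖h.toLp _‖ ≤ c * Real.exp (a * |z.im|) * max 1 (μ G').toReal := fun z hz =>
    memLp_bound μ p hG' hG'fin ((hmeas z hz).comp hθ.measurable)
      (fun t ht => hsupp z (θ t) ht) (by positivity) (fun t => hbd z hz (θ t))
  let F : ℂ → Lp ℂ p μ := fun z => if h : MemLp (fun t => g z (θ t)) p μ then h.toLp _ else 0
  have hF : ∀ z ∈ U, ∀ h : MemLp (fun t => g z (θ t)) p μ, F z = h.toLp _ := by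
    intro z _ h
    exact dif_pos h
  have hFae : ∀ z ∈ U, (F z : X → ℂ) =ᵐ[μ] fun t => g z (θ t) := by
    intro z hz
    obtain ⟨h, -⟩ := hmem z hz
    rw [hF z hz h]
    exact h.coeFn_toLp
  refine ⟨F, ?_, hFae, ?_⟩
  · intro z₀ hz₀
    obtain ⟨R, hR, hball⟩ := Metric.isOpen_iff.1 hU z₀ hz₀
    set K : ℝ := c * Real.exp (|a| * (|z₀.im| + R)) with hKdef
    have hK0 : 0 ≤ K := by positivity
    have hKb : ∀ z ∈ Metric.ball z₀ R, ∀ s, ‖g z s‖ ≤ K := by
      intro z hz s
      refine (hbd z (hball hz) s).trans ?_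
      apply mul_le_mul_of_nonneg_left _ hc
      apply Real.exp_le_exp.2
      have him : |z.im| ≤ |z₀.im| + R := by
        have h1 : |z.im - z₀.im| ≤ ‖z - z₀‖ := by
          rw [← Complex.sub_im]
          exact Complex.abs_im_le_norm _
        have h2 : ‖z - z₀‖ < R := by rwa [← dist_eq_norm]
        have h3 : |z.im| ≤ |z.im - z₀.im| + |z₀.im| := by
          have := abs_add_le (z.im - z₀.im) z₀.im
          simpa using this
        linarith
      calc a * |z.im| ≤ |a| * |z.im| := mul_le_mul_of_nonneg_right (le_abs_self a) (abs_nonneg _)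
        _ ≤ |a| * (|z₀.im| + R) := mul_le_mul_of_nonneg_left him (abs_nonneg _)
    have hT := fun s => taylor_two (h := fun z => g z s) hR ((hdiff s).mono hball)
      (fun z hz => hKb z hz s)
    -- the derivative
    set D : X → ℂ := fun s => deriv (fun z => g z s) z₀ with hDdef
    have hDsupp : ∀ s, s ∉ G → D s = 0 := by
      intro s hs
      have : (fun z => g z s) = fun _ => (0 : ℂ) := by
        funext z
        exact hsupp z s hs
      rw [hDdef]
      simp only [this, deriv_const]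
    have hDmeas : Measurable D := by
      set zn : ℕ → ℂ := fun n => z₀ + ((R / (n + 2) : ℝ) : ℂ) with hzn
      have hznb : ∀ n, zn n ∈ Metric.ball z₀ R := by
        intro n
        rw [Metric.mem_ball, dist_eq_norm, hzn]
        simp only [add_sub_cancel_left, Complex.norm_real, Real.norm_eq_abs]
        rw [abs_of_pos (by positivity), div_lt_iff₀ (by positivity)]
        have : (0 : ℝ) ≤ n := Nat.cast_nonneg n
        nlinarith
      have hznne : ∀ n, zn n ≠ z₀ := by
        intro n h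
        have : ((R / (n + 2) : ℝ) : ℂ) = 0 := by
          have := congrArg (fun w => w - z₀) h
          simpa [hzn] using this
        rw [Complex.ofReal_eq_zero] at this
        have h2 : 0 < R / ((n : ℝ) + 2) := by positivity
        linarith
      have hlim : Tendsto zn atTop (𝓝[≠] z₀) := by
        apply tendsto_nhdsWithin_iff.2
        refine ⟨?_, Eventually.of_forall hznne⟩
        have h1 : Tendsto (fun n : ℕ => R / ((n : ℝ) + 2)) atTop (𝓝 0) := by
          apply Tendsto.div_atTop tendsto_const_nhds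
          exact tendsto_atTop_add_const_right _ _ tendsto_natCast_atTop_atTop
        have h2 : Tendsto (fun n : ℕ => ((R / ((n : ℝ) + 2) : ℝ) : ℂ)) atTop (𝓝 ((0 : ℝ) : ℂ)) :=
          (Complex.continuous_ofReal.tendsto 0).comp h1
        have h3 := (tendsto_const_nhds (x := z₀)).add h2
        rw [Complex.ofReal_zero, add_zero] at h3
        exact h3
      refine measurable_of_tendsto_metrizable (f := fun n s => slope (fun z => g z s) z₀ (zn n))
        (fun n => ?_) ?_
      · have : (fun s => slope (fun z => g z s) z₀ (zn n)) =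
            fun s => (zn n - z₀)⁻¹ • (g (zn n) s - g z₀ s) := by
          funext s
          simp only [slope, vsub_eq_sub]
        rw [this]
        have h4 : Measurable fun s => g (zn n) s - g z₀ s :=
          (hmeas _ (hball (hznb n))).sub (hmeas z₀ hz₀)
        simp only [smul_eq_mul]
        exact h4.const_mul _
      · rw [tendsto_pi_nhds]
        intro s
        have hda : HasDerivAt (fun z => g z s) (D s) z₀ :=
          ((hdiff s).differentiableAt (hU.mem_nhds hz₀)).hasDerivAt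
        exact (hasDerivAt_iff_tendsto_slope.1 hda).comp hlim
    obtain ⟨hDmem, -⟩ := memLp_bound μ p hG' hG'fin (f := fun t => D (θ t))
      (hDmeas.comp hθ.measurable) (fun t ht => hDsupp (θ t) ht)
      (K := 2 * K / R) (by positivity) (fun t => (hT (θ t)).1)
    -- remainder estimate
    set C : ℝ := 2 * (2 * K / R) / R * max 1 (μ G').toReal with hC
    have hrem : ∀ z ∈ Metric.ball z₀ R,
        ‖F z - F z₀ - (z - z₀) • hDmem.toLp _‖ ≤ C * ‖z - z₀‖ ^ 2 := by
      intro z hz
      obtain ⟨h1, -⟩ := hmem z (hball hz)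
      obtain ⟨h0, -⟩ := hmem z₀ hz₀
      rw [hF z (hball hz) h1, hF z₀ hz₀ h0]
      obtain ⟨h2, h2b⟩ := memLp_bound μ p hG' hG'fin
        (f := fun t => g z (θ t) - g z₀ (θ t) - (z - z₀) * D (θ t))
        ((((hmeas z (hball hz)).sub (hmeas z₀ hz₀)).sub
          (hDmeas.const_mul (z - z₀))).comp hθ.measurable)
        (fun t ht => by
          simp only [hsupp z (θ t) ht, hsupp z₀ (θ t) ht, hDsupp (θ t) ht, mul_zero, sub_zero])
        (K := 2 * (2 * K / R) / R * ‖z - z₀‖ ^ 2) (by positivity)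
        (fun t => (hT (θ t)).2 z hz)
      have e : h1.toLp _ - h0.toLp _ - (z - z₀) • hDmem.toLp _ = h2.toLp _ := by
        rw [← MemLp.toLp_sub, ← MemLp.toLp_const_smul, ← MemLp.toLp_sub]
        rfl
      rw [e]
      calc ‖h2.toLp _‖ ≤ 2 * (2 * K / R) / R * ‖z - z₀‖ ^ 2 * max 1 (μ G').toReal := h2b
        _ = C * ‖z - z₀‖ ^ 2 := by rw [hC]; ring
    have hder : HasDerivAt F (hDmem.toLp _) z₀ := by
      rw [hasDerivAt_iff_isLittleO]
      have hO : (fun z => F z - F z₀ - (z - z₀) • hDmem.toLp _) =O[𝓝 z₀]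
          fun z => ‖z - z₀‖ ^ 2 := by
        apply Asymptotics.IsBigO.of_bound C
        filter_upwards [Metric.ball_mem_nhds z₀ hR] with z hz
        rw [Real.norm_of_nonneg (by positivity)]
        exact hrem z hz
      refine hO.trans_isLittleO ?_
      have h1 : (fun z : ℂ => ‖z - z₀‖ ^ 2) =o[𝓝 z₀] fun z => ‖z - z₀‖ ^ 1 := by
        have h2 : Tendsto (fun z : ℂ => ‖z - z₀‖) (𝓝 z₀) (𝓝 0) := by
          have : Tendsto (fun z : ℂ => ‖z - z₀‖) (𝓝 z₀) (𝓝 ‖z₀ - z₀‖) := by
            apply Continuous.tendsto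
            fun_prop
          simpa using this
        exact (Asymptotics.isLittleO_pow_pow (m := 1) (n := 2) (by norm_num)).comp_tendsto h2
      simpa using h1.norm_right
    exact hder.differentiableAt.differentiableWithinAt
  · intro z hz
    obtain ⟨h, hb⟩ := hmem z hz
    rw [hF z hz h]
    rwa [hμG'] at hb

end Pool.Agent.Bishop
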