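import Mathlib
import Pool.Agent.Lib_helper15.Bishop.Defs
import Pool.Agent.Lib_helper27.Bishop.ModW

/-!
# Bishop operators: rational rotation angles

If `a = P / Q` then `T ^ Q` is the multiplication by the product `g` of the weight over the orbit;
the vectors `f` with `‖T ^ (Q n) f‖ ≤ K c ^ n` form a hyperinvariant subspace, whose closure is
nontrivial for suitable `c`.
-/

set_option autoImplicit false

namespace Pool.Agent.Bishop

open MeasureTheory Set Filter
open scoped ENNReal NNReal Topology

namespace QQ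

/-- product of the weight over an orbit -/
noncomputable def gq (a : UnitAddCircle) (n : ℕ) (t : UnitAddCircle) : ℝ :=
  ∏ j ∈ Finset.range n, coord (t + j • a)

theorem gq_measurable (a : UnitAddCircle) (n : ℕ) : Measurable (gq a n) := by
  unfold gq
  refine Finset.measurable_prod _ fun j _ => ?_
  exact measurable_coord.comp (measurable_id.add_const _)

theorem gq_nonneg (a : UnitAddCircle) (n : ℕ) (t : UnitAddCircle) : 0 ≤ gq a n t :=
  Finset.prod_nonneg fun _ _ => coord_nonneg _

theorem gq_le_coord (a : UnitAddCircle) (n : ℕ) (hn : 0 < n) (t : UnitAddCircle) :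
    gq a n t ≤ coord t := by
  obtain ⟨m, rfl⟩ := Nat.exists_eq_succ_of_ne_zero hn.ne'
  unfold gq
  rw [Finset.prod_range_succ']
  simp only [zero_smul, add_zero]
  have h : ∏ k ∈ Finset.range m, coord (t + (k + 1) • a) ≤ 1 :=
    Finset.prod_le_one (fun _ _ => coord_nonneg _) fun _ _ => (coord_lt_one _).le
  calc _ ≤ 1 * coord t := mul_le_mul_of_nonneg_right h (coord_nonneg t)
    _ = coord t := one_mul _

theorem gq_pos_ae (a : UnitAddCircle) (n : ℕ) :
    ∀ᵐ t : UnitAddCircle, 0 < gq a n t := by
  have h : ∀ j : ℕ, ∀ᵐ t : UnitAddCircle, coord (t + j • a) ≠ 0 := by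
    intro j
    have hmp := (measurePreserving_add_right (volume : Measure UnitAddCircle)
      (j • a)).quasiMeasurePreserving
    exact hmp.ae (p := fun t => coord t ≠ 0) coord_ne_zero_ae
  filter_upwards [ae_all_iff.mpr h] with t ht
  exact Finset.prod_pos fun j _ => lt_of_le_of_ne (coord_nonneg _) (ht j).symm

variable {p : ℝ≥0∞} [Fact (1 ≤ p)]

theorem iter_T (a : UnitAddCircle)
    (T : Lp ℂ p (volume : Measure UnitAddCircle) →L[ℂ] Lp ℂ p (volume : Measure UnitAddCircle))
    (hT : ∀ f, (T f : UnitAddCircle → ℂ) =ᵐ[volume]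
      fun t => (coord t : ℂ) * (f : UnitAddCircle → ℂ) (t + a)) (n : ℕ) :
    ∀ f : Lp ℂ p (volume : Measure UnitAddCircle),
      ((T ^ n) f : UnitAddCircle → ℂ) =ᵐ[volume]
        fun t => (gq a n t : ℂ) * (f : UnitAddCircle → ℂ) (t + n • a) := by
  induction n with
  | zero =>
    intro f
    refine Eventually.of_forall fun t => ?_
    simp [gq]
  | succ n ih =>
    intro f
    have h1 := ih (T f)
    have h2 := (measurePreserving_add_right (volume : Measure UnitAddCircle)
      (n • a)).quasiMeasurePreserving.ae (hT f)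
    have h3 : (T ^ (n + 1)) f = (T ^ n) (T f) := by
      rw [pow_succ]; rfl
    rw [h3]
    filter_upwards [h1, h2] with t h1 h2
    rw [h1, h2]
    unfold gq
    rw [Finset.prod_range_succ, succ_nsmul, ← add_assoc]
    push_cast
    ring

theorem iter_S (g : UnitAddCircle → ℝ)
    (S : Lp ℂ p (volume : Measure UnitAddCircle) →L[ℂ] Lp ℂ p (volume : Measure UnitAddCircle))
    (hS : ∀ f, (S f : UnitAddCircle → ℂ) =ᵐ[volume]
      fun t => (g t : ℂ) * (f : UnitAddCircle → ℂ) t) (n : ℕ) :
    ∀ f : Lp ℂ p (volume : Measure UnitAddCircle),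
      ((S ^ n) f : UnitAddCircle → ℂ) =ᵐ[volume]
        fun t => ((g t : ℂ)) ^ n * (f : UnitAddCircle → ℂ) t := by
  induction n with
  | zero =>
    intro f
    refine Eventually.of_forall fun t => ?_
    simp
  | succ n ih =>
    intro f
    have h1 := ih (S f)
    have h3 : (S ^ (n + 1)) f = (S ^ n) (S f) := by
      rw [pow_succ]; rfl
    rw [h3]
    filter_upwards [h1, hS f] with t h1 h2
    rw [h1, h2]
    ring

/-- A nonconstant nonnegative multiplication operator that is a power of `T` gives a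
hyperinvariant subspace. -/
theorem hasHyper_of_mul (g : UnitAddCircle → ℝ) (hg : Measurable g) (hg0 : ∀ t, 0 ≤ g t)
    (T S : Lp ℂ p (volume : Measure UnitAddCircle) →L[ℂ] Lp ℂ p (volume : Measure UnitAddCircle))
    (hTS : ∀ A : Lp ℂ p (volume : Measure UnitAddCircle) →L[ℂ]
      Lp ℂ p (volume : Measure UnitAddCircle), A * T = T * A → A * S = S * A)
    (hS : ∀ f, (S f : UnitAddCircle → ℂ) =ᵐ[volume]
      fun t => (g t : ℂ) * (f : UnitAddCircle → ℂ) t)
    (c : ℝ) (hc : 0 < c)
    (h1 : volume {t | g t ≤ c} ≠ 0) (h2 : volume {t | c < g t} ≠ 0) : HasHyper T := by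
  classical
  have hSn := iter_S (p := p) g S hS
  let M : Submodule ℂ (Lp ℂ p (volume : Measure UnitAddCircle)) :=
    { carrier := {f | ∃ K : ℝ, ∀ n : ℕ, ‖(S ^ n) f‖ ≤ K * c ^ n}
      add_mem' := by
        rintro f f' ⟨K, hK⟩ ⟨K', hK'⟩
        refine ⟨K + K', fun n => ?_⟩
        rw [map_add, add_mul]
        exact (norm_add_le _ _).trans (add_le_add (hK n) (hK' n))
      zero_mem' := ⟨0, fun n => by simp⟩
      smul_mem' := by
        rintro z f ⟨K, hK⟩
        refine ⟨‖z‖ * K, fun n => ?_⟩
        rw [map_smul, norm_smul, mul_assoc]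
        exact mul_le_mul_of_nonneg_left (hK n) (norm_nonneg _) }
  have hMmem : ∀ f, f ∈ M ↔ ∃ K : ℝ, ∀ n : ℕ, ‖(S ^ n) f‖ ≤ K * c ^ n := fun f => Iff.rfl
  -- elements of `M` vanish where `g > c`
  have hMvan : ∀ f ∈ M, ∀ᵐ t : UnitAddCircle, c < g t → (f : UnitAddCircle → ℂ) t = 0 := by
    rintro f ⟨K, hK⟩
    have hk : ∀ k : ℕ, ∀ᵐ t : UnitAddCircle, c + 1 / ((k : ℝ) + 1) ≤ g t →
        (f : UnitAddCircle → ℂ) t = 0 := by
      intro k
      set c' : ℝ := c + 1 / ((k : ℝ) + 1) with hc'
      have hkpos : (0 : ℝ) < 1 / ((k : ℝ) + 1) := by positivity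
      have hc'0 : 0 < c' := by positivity
      have hcc' : c < c' := by linarith
      have hms : MeasurableSet {t | c' ≤ g t} := measurableSet_le measurable_const hg
      set P : Lp ℂ p (volume : Measure UnitAddCircle) :=
        ((Lp.memLp f).indicator hms).toLp _ with hP
      have hPae : (P : UnitAddCircle → ℂ) =ᵐ[volume]
          {t | c' ≤ g t}.indicator (f : UnitAddCircle → ℂ) := MemLp.coeFn_toLp _
      have hb : ∀ n : ℕ, ‖P‖ ≤ K * (c / c') ^ n := by
        intro n
        have h3 : ‖P‖ ≤ (c' ^ n)⁻¹ * ‖(S ^ n) f‖ := by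
          refine Lp.norm_le_mul_norm_of_ae_le_mul ?_
          filter_upwards [hPae, hSn n f] with t ht1 ht2
          rw [ht1, ht2]
          by_cases ht : c' ≤ g t
          · rw [indicator_of_mem (show t ∈ {t | c' ≤ g t} from ht), norm_mul, norm_pow,
              Complex.norm_real, Real.norm_of_nonneg (hg0 t), ← mul_assoc]
            have h4 : 1 ≤ (c' ^ n)⁻¹ * g t ^ n := by
              rw [inv_mul_eq_div, one_le_div (by positivity)]
              exact pow_le_pow_left₀ hc'0.le ht n
            exact le_mul_of_one_le_left (norm_nonneg _) h4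
          · rw [indicator_of_notMem (show t ∉ {t | c' ≤ g t} from ht)]
            rw [norm_zero]
            positivity
        calc ‖P‖ ≤ (c' ^ n)⁻¹ * ‖(S ^ n) f‖ := h3
          _ ≤ (c' ^ n)⁻¹ * (K * c ^ n) := by
            exact mul_le_mul_of_nonneg_left (hK n) (by positivity)
          _ = K * (c / c') ^ n := by
            rw [div_pow]; field_simp
      have hlim : Tendsto (fun n : ℕ => K * (c / c') ^ n) atTop (𝓝 (K * 0)) := by
        refine (tendsto_pow_atTop_nhds_zero_of_lt_one (by positivity) ?_).const_mul K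
        rw [div_lt_one hc'0]; exact hcc'
      rw [mul_zero] at hlim
      have hP0 : ‖P‖ ≤ 0 := ge_of_tendsto' hlim hb
      have hP0' : P = 0 := norm_le_zero_iff.mp hP0
      have hz : (P : UnitAddCircle → ℂ) =ᵐ[volume] 0 := by
        rw [hP0']; exact Lp.coeFn_zero _ _ _
      filter_upwards [hPae, hz] with t ht1 ht2 ht
      rw [ht2, indicator_of_mem (show t ∈ {t | c' ≤ g t} from ht)] at ht1
      simpa using ht1.symm
    filter_upwards [ae_all_iff.mpr hk] with t ht hlt
    obtain ⟨k, hk⟩ := exists_nat_one_div_lt (sub_pos.mpr hlt)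
    exact ht k (by linarith)
  have hms1 : MeasurableSet {t | g t ≤ c} := measurableSet_le hg measurable_const
  have hms2 : MeasurableSet {t | c < g t} := measurableSet_lt measurable_const hg
  have hind : ∀ s : Set UnitAddCircle, ∀ hs : MeasurableSet s, volume s ≠ 0 →
      (indicatorConstLp p hs (measure_ne_top volume s) (1 : ℂ)) ≠ 0 := by
    intro s hs hs0 h
    apply hs0
    have e1 := indicatorConstLp_coeFn (p := p) (hs := hs) (hμs := measure_ne_top volume s)
      (c := (1 : ℂ))
    rw [h] at e1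
    have e2 := Lp.coeFn_zero ℂ p (volume : Measure UnitAddCircle)
    have e3 : ∀ᵐ t : UnitAddCircle, t ∉ s := by
      filter_upwards [e1, e2] with t ht1 ht2 hts
      rw [ht2, indicator_of_mem hts] at ht1
      simp at ht1
    have := ae_iff.mp e3
    simpa using this
  refine ⟨M.topologicalClosure, M.isClosed_topologicalClosure, ?_, ?_, ?_⟩
  · -- not bot
    intro hbot
    have hmem : indicatorConstLp p hms1 (measure_ne_top volume _) (1 : ℂ) ∈ M := by
      rw [hMmem]
      refine ⟨‖indicatorConstLp p hms1 (measure_ne_top volume {t | g t ≤ c}) (1 : ℂ)‖,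
        fun n => ?_⟩
      rw [mul_comm]
      refine Lp.norm_le_mul_norm_of_ae_le_mul ?_
      filter_upwards [hSn n (indicatorConstLp p hms1 (measure_ne_top volume _) (1 : ℂ)),
        indicatorConstLp_coeFn (p := p) (hs := hms1) (hμs := measure_ne_top volume _)
          (c := (1 : ℂ))] with t ht1 ht2
      rw [ht1, ht2, norm_mul, norm_pow, Complex.norm_real, Real.norm_of_nonneg (hg0 t)]
      by_cases ht : t ∈ {t | g t ≤ c}
      · exact mul_le_mul_of_nonneg_right (pow_le_pow_left₀ (hg0 t) ht n) (norm_nonneg _)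
      · rw [indicator_of_notMem ht]; simp
    have hmem2 := M.le_topologicalClosure hmem
    rw [hbot, Submodule.mem_bot] at hmem2
    exact hind _ hms1 h1 hmem2
  · -- not top
    intro htop
    set e : Lp ℂ p (volume : Measure UnitAddCircle) :=
      indicatorConstLp p hms2 (measure_ne_top volume _) (1 : ℂ) with he
    have he0 : 0 < ‖e‖ := norm_pos_iff.mpr (hind _ hms2 h2)
    have hecl : e ∈ closure (M : Set (Lp ℂ p (volume : Measure UnitAddCircle))) := by
      have : e ∈ M.topologicalClosure := by rw [htop]; trivial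
      exact this
    obtain ⟨f, hfM, hf⟩ := Metric.mem_closure_iff.mp hecl ‖e‖ he0
    rw [dist_eq_norm] at hf
    have hle : ‖e‖ ≤ ‖e - f‖ := by
      refine Lp.norm_le_norm_of_ae_le ?_
      filter_upwards [hMvan f hfM, Lp.coeFn_sub e f,
        indicatorConstLp_coeFn (p := p) (hs := hms2) (hμs := measure_ne_top volume _)
          (c := (1 : ℂ))] with t ht1 ht2 ht3
      rw [ht2, Pi.sub_apply]
      by_cases ht : t ∈ {t | c < g t}
      · rw [ht1 ht, sub_zero]
      · rw [he, ht3, indicator_of_notMem ht]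
        simp
    linarith
  · -- hyperinvariance
    intro A hA
    have hAS := hTS A hA
    have hASn : ∀ n : ℕ, ∀ f, (S ^ n) (A f) = A ((S ^ n) f) := by
      intro n f
      have : A * S ^ n = S ^ n * A := (Commute.pow_right (show Commute A S from hAS) n).eq
      calc (S ^ n) (A f) = (S ^ n * A) f := rfl
        _ = (A * S ^ n) f := by rw [this]
        _ = A ((S ^ n) f) := rfl
    have hAM : ∀ x ∈ M, A x ∈ M := by
      rintro f ⟨K, hK⟩
      refine ⟨‖A‖ * K, fun n => ?_⟩
      rw [hASn, mul_assoc]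
      exact (A.le_opNorm _).trans (mul_le_mul_of_nonneg_left (hK n) (norm_nonneg _))
    intro x hx
    have hx' : x ∈ closure (M : Set (Lp ℂ p (volume : Measure UnitAddCircle))) := hx
    exact map_mem_closure A.continuous hx' fun y hy => hAM y hy

theorem volume_coord_le_pos {c : ℝ} (hc : 0 < c) :
    volume {t : UnitAddCircle | coord t ≤ c} ≠ 0 := by
  set d : ℝ := min c 1 with hd
  have hd0 : 0 < d := lt_min hc one_pos
  have hopen : IsOpen ((fun x : ℝ => (x : UnitAddCircle)) '' Ioo 0 d) :=
    QuotientAddGroup.isOpenMap_coe _ isOpen_Ioo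
  have hne : ((fun x : ℝ => (x : UnitAddCircle)) '' Ioo 0 d).Nonempty :=
    (nonempty_Ioo.mpr hd0).image _
  have hpos := hopen.measure_pos (volume : Measure UnitAddCircle) hne
  refine (lt_of_lt_of_le hpos (measure_mono ?_)).ne'
  rintro _ ⟨x, hx, rfl⟩
  have hx1 : x < 1 := lt_of_lt_of_le hx.2 (min_le_right _ _)
  change coord (x : UnitAddCircle) ≤ c
  rw [coord_coe, Int.fract_eq_self.mpr ⟨hx.1.le, hx1⟩]
  exact hx.2.le.trans (min_le_left _ _)

end QQ

open QQ in
/-- (Q) rational rotation angles. -/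
theorem modQ : ModQ := by
  intro p _ α hα T hT
  -- the period
  obtain ⟨r, hr⟩ : ∃ r : ℚ, (r : ℝ) = α := by
    unfold Irrational at hα
    push Not at hα
    exact hα
  set a : UnitAddCircle := (α : UnitAddCircle) with ha
  have hQ : 0 < r.den := r.pos
  have hQa : r.den • a = 0 := by
    rw [ha, ← AddCircle.coe_nsmul, nsmul_eq_mul, ← hr]
    have h1 : ((r.den : ℝ)) * (r : ℝ) = (r.num : ℝ) := by
      have := Rat.den_mul_eq_num r
      exact_mod_cast this
    rw [h1, AddCircle.coe_eq_zero_iff]
    exact ⟨r.num, by simp⟩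
  have hiter := iter_T (p := p) a T hT r.den
  have hS : ∀ f, ((T ^ r.den) f : UnitAddCircle → ℂ) =ᵐ[volume]
      fun t => ((gq a r.den t : ℝ) : ℂ) * (f : UnitAddCircle → ℂ) t := by
    intro f
    have := hiter f
    rw [hQa] at this
    simpa using this
  -- a level
  obtain ⟨k, hk⟩ : ∃ k : ℕ, volume {t | 1 / ((k : ℝ) + 1) < gq a r.den t} ≠ 0 := by
    by_contra hcon
    push Not at hcon
    have h0 : volume (⋃ k : ℕ, {t | 1 / ((k : ℝ) + 1) < gq a r.den t}) = 0 :=
      measure_iUnion_null hcon
    have h1 := gq_pos_ae a r.den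
    have h2 : ∀ᵐ t : UnitAddCircle, t ∉ ⋃ k : ℕ, {t | 1 / ((k : ℝ) + 1) < gq a r.den t} :=
      measure_eq_zero_iff_ae_notMem.mp h0
    have h3 : ∀ᵐ _t : UnitAddCircle, False := by
      filter_upwards [h1, h2] with t ht1 ht2
      obtain ⟨k, hk⟩ := exists_nat_one_div_lt ht1
      exact ht2 (mem_iUnion.mpr ⟨k, hk⟩)
    have h4 : (volume : Measure UnitAddCircle) univ = 0 := by
      have := ae_iff.mp h3
      simp at this
    have h5 : (volume : Measure UnitAddCircle) univ ≠ 0 := by
      simp
    exact h5 h4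
  have hc : (0 : ℝ) < 1 / ((k : ℝ) + 1) := by positivity
  refine hasHyper_of_mul (p := p) (gq a r.den) (gq_measurable a r.den) (gq_nonneg a r.den) T
    (T ^ r.den) (fun A hA => (Commute.pow_right (show Commute A T from hA) r.den).eq) hS
    (1 / ((k : ℝ) + 1)) hc ?_ hk
  intro h0
  refine volume_coord_le_pos hc (measure_mono_null ?_ h0)
  intro t ht
  exact (gq_le_coord a r.den hQ t).trans ht

end Pool.Agent.Bishop
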